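import Pool.Agent.Helper15.BP.Ent

/-!
# Two conditionally independent trials and the fibre form of the entropic BSG lemma

`w2 w U` is the law of a pair of trials that are independent copies given the value of `U`.
`bsg`: in a group of exponent two, with `U = (A + B, C)`,
`H(A₁ + A₂ | U) - H(A | U) ≤ 3 I(A ; B | C) + 2 H(A + B | C) - H(A | C) - H(B | C)`.
-/

set_option autoImplicit false

namespace Pool.Agent.Helper97.PF

open Finset Pool.Agent.Helper15.BP

variable {Ω α β γ : Type*} [Fintype Ω]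

theorem ite_any {p : Prop} {d d' : Decidable p} {x y : ℝ} :
    @ite ℝ p d x y = @ite ℝ p d' x y := by
  by_cases h : p
  · rw [@if_pos _ d h, @if_pos _ d' h]
  · rw [@if_neg _ d h, @if_neg _ d' h]

/-! ### Congruence and monotonicity on the support -/

theorem pr_congr' {w : Ω → ℝ} {f : Ω → α} {g : Ω → β}
    (h : ∀ o o', w o ≠ 0 → w o' ≠ 0 → (f o = f o' ↔ g o = g o')) {o : Ω} (ho : w o ≠ 0) :
    pr w f (f o) = pr w g (g o) := by
  classical
  unfold pr
  refine Finset.sum_congr rfl fun x _ => ?_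
  by_cases hw : w x = 0
  · simp [hw]
  · by_cases hx : f x = f o
    · rw [if_pos hx, if_pos ((h x o hw ho).1 hx)]
    · rw [if_neg hx, if_neg fun h' => hx ((h x o hw ho).2 h')]

theorem Ent_congr' {w : Ω → ℝ} {f : Ω → α} {g : Ω → β}
    (h : ∀ o o', w o ≠ 0 → w o' ≠ 0 → (f o = f o' ↔ g o = g o')) : Ent w f = Ent w g := by
  unfold Ent
  refine Finset.sum_congr rfl fun o _ => ?_
  by_cases ho : w o = 0
  · simp [ho]
  · rw [pr_congr' h ho]

theorem Ent_mono' {w : Ω → ℝ} (hw : IsPr w) {f : Ω → α} {g : Ω → β}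
    (h : ∀ o o', w o ≠ 0 → w o' ≠ 0 → g o = g o' → f o = f o') : Ent w f ≤ Ent w g := by
  have h1 : Ent w g = Ent w (fun o => (f o, g o)) :=
    Ent_congr' fun o o' ho ho' => ⟨fun e => Prod.ext (h o o' ho ho' e) e, fun e => congrArg Prod.snd e⟩
  rw [h1]
  exact Ent_mono hw fun o o' e => congrArg Prod.fst e

/-! ### Two trials -/

/-- two trials, independent given the value of `U` -/
noncomputable def w2 (w : Ω → ℝ) (U : Ω → γ) : Ω × Ω → ℝ := by
  classical exact fun p => if U p.1 = U p.2 then w p.1 * w p.2 / pr w U (U p.1) else 0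

theorem w2_supp {w : Ω → ℝ} {U : Ω → γ} {p : Ω × Ω} (h : w2 w U p ≠ 0) :
    U p.1 = U p.2 ∧ w p.1 ≠ 0 ∧ w p.2 ≠ 0 := by
  classical
  unfold w2 at h
  by_cases hU : U p.1 = U p.2
  · rw [if_pos hU] at h
    refine ⟨hU, ?_, ?_⟩
    · intro h0
      apply h
      rw [h0, zero_mul, zero_div]
    · intro h0
      apply h
      rw [h0, mul_zero, zero_div]
  · rw [if_neg hU] at h
    exact absurd rfl h

theorem w2_nonneg {w : Ω → ℝ} (hw : IsPr w) (U : Ω → γ) (p : Ω × Ω) : 0 ≤ w2 w U p := by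
  classical
  unfold w2
  split_ifs
  · exact div_nonneg (mul_nonneg (hw.nonneg _) (hw.nonneg _)) (pr_nonneg hw _ _)
  · exact le_rfl

theorem w2_swap (w : Ω → ℝ) (U : Ω → γ) (p : Ω × Ω) : w2 w U p.swap = w2 w U p := by
  classical
  unfold w2
  simp only [Prod.fst_swap, Prod.snd_swap]
  by_cases hU : U p.1 = U p.2
  · rw [if_pos hU, if_pos hU.symm, hU, mul_comm]
  · rw [if_neg hU, if_neg (fun h => hU h.symm)]

theorem sum_w2_fst {w : Ω → ℝ} (hw : IsPr w) (U : Ω → γ) (F : Ω → ℝ) :
    ∑ p, w2 w U p * F p.1 = ∑ o, w o * F o := by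
  classical
  rw [Fintype.sum_prod_type]
  refine Finset.sum_congr rfl fun o _ => ?_
  have h1 : ∀ o', w2 w U (o, o') * F o = (w o / pr w U (U o) * F o) *
      (if U o' = U o then w o' else 0) := by
    intro o'
    unfold w2
    by_cases hU : U o = U o'
    · simp only [if_pos hU, if_pos hU.symm]
      ring
    · simp only [if_neg hU, if_neg (fun h => hU (Eq.symm h))]
      ring
  simp only [h1]
  rw [← Finset.mul_sum]
  have h2 : ∑ o', (if U o' = U o then w o' else 0) = pr w U (U o) := by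
    unfold pr
    rfl
  rw [h2]
  rcases (hw.nonneg o).eq_or_lt with h0 | h0
  · rw [← h0]; simp
  · have := pr_pos hw U h0
    field_simp

theorem sum_w2_snd {w : Ω → ℝ} (hw : IsPr w) (U : Ω → γ) (F : Ω → ℝ) :
    ∑ p, w2 w U p * F p.2 = ∑ o, w o * F o := by
  rw [← sum_w2_fst hw U F]
  refine Fintype.sum_equiv (Equiv.prodComm Ω Ω) _ _ fun p => ?_
  rw [Equiv.prodComm_apply, w2_swap, Prod.fst_swap]

theorem w2_isPr {w : Ω → ℝ} (hw : IsPr w) (U : Ω → γ) : IsPr (w2 w U) := by
  refine ⟨w2_nonneg hw U, ?_⟩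
  have := sum_w2_fst hw U (fun _ => 1)
  simp only [mul_one] at this
  rw [this, hw.sum_one]

theorem pr_w2_fst {w : Ω → ℝ} (hw : IsPr w) (U : Ω → γ) (f : Ω → α) (a : α) :
    pr (w2 w U) (fun p => f p.1) a = pr w f a := by
  classical
  have := sum_w2_fst hw U (fun o => if f o = a then 1 else 0)
  simp only [mul_ite, mul_one, mul_zero] at this
  unfold pr
  exact this

theorem pr_w2_snd {w : Ω → ℝ} (hw : IsPr w) (U : Ω → γ) (f : Ω → α) (a : α) :
    pr (w2 w U) (fun p => f p.2) a = pr w f a := by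
  classical
  have := sum_w2_snd hw U (fun o => if f o = a then 1 else 0)
  simp only [mul_ite, mul_one, mul_zero] at this
  unfold pr
  exact this

theorem Ent_w2_fst {w : Ω → ℝ} (hw : IsPr w) (U : Ω → γ) (f : Ω → α) :
    Ent (w2 w U) (fun p => f p.1) = Ent w f := by
  unfold Ent
  rw [← sum_w2_fst hw U]
  exact Finset.sum_congr rfl fun p _ => by rw [pr_w2_fst hw]

theorem Ent_w2_snd {w : Ω → ℝ} (hw : IsPr w) (U : Ω → γ) (f : Ω → α) :
    Ent (w2 w U) (fun p => f p.2) = Ent w f := by
  unfold Ent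
  rw [← sum_w2_snd hw U]
  exact Finset.sum_congr rfl fun p _ => by rw [pr_w2_snd hw]

/-- the joint law of two trials -/
theorem pr_w2 (w : Ω → ℝ) (U : Ω → γ) (f : Ω → α) (g : Ω → β) (a : α) (b : β) (u : γ) :
    pr (w2 w U) (fun p => (f p.1, g p.2, U p.1)) (a, b, u) =
      pr w (fun o => (f o, U o)) (a, u) * pr w (fun o => (g o, U o)) (b, u) / pr w U u := by
  classical
  have h1 : ∀ q : ℝ, pr w (fun o => (f o, U o)) (a, u) * pr w (fun o => (g o, U o)) (b, u) / q =
      ∑ o, ∑ o', (if (f o, U o) = (a, u) then w o else 0) *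
        (if (g o', U o') = (b, u) then w o' else 0) / q := by
    intro q
    unfold pr
    rw [Finset.sum_mul_sum, Finset.sum_div]
    refine Finset.sum_congr rfl fun o _ => ?_
    rw [Finset.sum_div]
    exact Finset.sum_congr rfl fun o' _ => congrArg (· / q)
      (congrArg₂ (· * ·) ite_any ite_any)
  rw [h1]
  have h2 : pr (w2 w U) (fun p => (f p.1, g p.2, U p.1)) (a, b, u) =
      ∑ o, ∑ o', (if (f o, g o', U o) = (a, b, u) then w2 w U (o, o') else 0) := by
    unfold pr
    rw [Fintype.sum_prod_type]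
    exact Finset.sum_congr rfl fun o _ => Finset.sum_congr rfl fun o' _ => ite_any
  rw [h2]
  refine Finset.sum_congr rfl fun o _ => Finset.sum_congr rfl fun o' _ => ?_
  unfold w2
  simp only [Prod.mk.injEq]
  by_cases h3 : f o = a <;> by_cases h4 : g o' = b <;> by_cases h5 : U o = u <;>
    by_cases h6 : U o' = u
  all_goals simp only [h3, h4, h5, h6, and_self, and_true, and_false, if_true,
    if_false, zero_mul, mul_zero, zero_div, ite_self]
  all_goals first
    | rfl
    | (rw [if_neg]; exact fun h => h6 h.symm)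

/-- two trials are conditionally independent -/
theorem Ent_w2 {w : Ω → ℝ} (hw : IsPr w) (U : Ω → γ) (f : Ω → α) (g : Ω → β) :
    Ent (w2 w U) (fun p => (f p.1, g p.2, U p.1)) =
      Ent w (fun o => (f o, U o)) + Ent w (fun o => (g o, U o)) - Ent w U := by
  have h1 : Ent w (fun o => (f o, U o)) + Ent w (fun o => (g o, U o)) - Ent w U =
      ∑ p, w2 w U p * (-Real.log (pr w (fun o => (f o, U o)) (f p.1, U p.1)) +
        -Real.log (pr w (fun o => (g o, U o)) (g p.2, U p.2)) - -Real.log (pr w U (U p.1))) := by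
    simp only [mul_add, mul_sub]
    rw [Finset.sum_sub_distrib, Finset.sum_add_distrib,
      sum_w2_fst hw U (fun o => -Real.log (pr w (fun o => (f o, U o)) (f o, U o))),
      sum_w2_snd hw U (fun o => -Real.log (pr w (fun o => (g o, U o)) (g o, U o))),
      sum_w2_fst hw U (fun o => -Real.log (pr w U (U o)))]
    rfl
  rw [h1]
  unfold Ent
  refine Finset.sum_congr rfl fun p _ => ?_
  by_cases hp : w2 w U p = 0
  · rw [hp, zero_mul, zero_mul]
  · obtain ⟨hU, h3, h4⟩ := w2_supp hp
    have h3' : 0 < w p.1 := lt_of_le_of_ne (hw.nonneg _) (Ne.symm h3)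
    have h4' : 0 < w p.2 := lt_of_le_of_ne (hw.nonneg _) (Ne.symm h4)
    rw [pr_w2]
    have q1 : 0 < pr w (fun o => (f o, U o)) (f p.1, U p.1) := pr_pos hw (fun o => (f o, U o)) h3'
    have q2 : 0 < pr w (fun o => (g o, U o)) (g p.2, U p.2) := pr_pos hw (fun o => (g o, U o)) h4'
    have q3 : 0 < pr w U (U p.1) := pr_pos hw U h3'
    rw [hU] at q1 q3 ⊢
    rw [Real.log_div (mul_pos q1 q2).ne' q3.ne', Real.log_mul q1.ne' q2.ne']
    ring

/-- the entropic Balog-Szemerédi-Gowers lemma, fibre form, exponent two -/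
theorem bsg {G : Type*} [AddCommGroup G] (h2 : ∀ x : G, x + x = 0) {w : Ω → ℝ} (hw : IsPr w)
    (A B : Ω → G) (C : Ω → γ) :
    (Ent (w2 w (fun o => (A o + B o, C o))) (fun p => (A p.1 + A p.2, A p.1 + B p.1, C p.1)) -
        Ent w (fun o => (A o + B o, C o))) -
      (Ent w (fun o => (A o, A o + B o, C o)) - Ent w (fun o => (A o + B o, C o))) ≤
    3 * (Ent w (fun o => (A o, C o)) + Ent w (fun o => (B o, C o)) -
        Ent w (fun o => (A o, B o, C o)) - Ent w C) +
      2 * (Ent w (fun o => (A o + B o, C o)) - Ent w C) -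
      (Ent w (fun o => (A o, C o)) - Ent w C) - (Ent w (fun o => (B o, C o)) - Ent w C) := by
  set U : Ω → G × γ := fun o => (A o + B o, C o) with hU
  have hv := w2_isPr hw U
  set v := w2 w U with hv'
  -- on the support
  have hs : ∀ p, v p ≠ 0 → A p.1 + B p.1 = A p.2 + B p.2 ∧ C p.1 = C p.2 := by
    intro p hp
    have := (w2_supp hp).1
    exact ⟨congrArg Prod.fst this, congrArg Prod.snd this⟩
  have hneg : ∀ x : G, -x = x := fun x => (eq_neg_of_add_eq_zero_left (h2 x)).symm
  -- `A₁ + A₂` against `A₁ + B₂`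
  have e1 : Ent v (fun p => (A p.1 + A p.2, A p.1 + B p.1, C p.1)) =
      Ent v (fun p => (A p.1 + B p.2, A p.1 + B p.1, C p.1)) := by
    refine Ent_congr' fun o o' ho ho' => ?_
    have s1 := (hs o ho).1
    have s2 := (hs o' ho').1
    have t1 : A o.1 + B o.2 = (A o.1 + A o.2) + (A o.1 + B o.1) := by
      rw [s1]
      have := h2 (A o.2)
      calc A o.1 + B o.2 = A o.1 + (A o.2 + A o.2) + B o.2 := by rw [this, add_zero]
        _ = _ := by abel
    have t2 : A o'.1 + B o'.2 = (A o'.1 + A o'.2) + (A o'.1 + B o'.1) := by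
      rw [s2]
      have := h2 (A o'.2)
      calc A o'.1 + B o'.2 = A o'.1 + (A o'.2 + A o'.2) + B o'.2 := by rw [this, add_zero]
        _ = _ := by abel
    simp only [Prod.mk.injEq]
    constructor
    · rintro ⟨h3, h4, h5⟩
      exact ⟨by rw [t1, t2, h3, h4], h4, h5⟩
    · rintro ⟨h3, h4, h5⟩
      refine ⟨?_, h4, h5⟩
      rw [t1, t2, h4] at h3
      exact add_right_cancel h3
  -- conditioning
  have e2 := Ent_submod hv (fun p => A p.1 + B p.2) (fun p => A p.1 + B p.1) (fun p => C p.1)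
  have e3 : Ent v (fun p => C p.1) = Ent w C := Ent_w2_fst hw U C
  have e4 : Ent v (fun p => (A p.1 + B p.1, C p.1)) = Ent w U :=
    Ent_w2_fst hw U (fun o => (A o + B o, C o))
  -- the submodularity step
  have e5 := Ent_submod hv (fun p => (A p.1, B p.2)) (fun p => (A p.2, B p.1))
    (fun p => (A p.1 + B p.2, C p.1))
  have e6 : Ent v (fun p => ((A p.1, B p.2), (A p.1 + B p.2, C p.1))) ≤
      Ent w (fun o => (A o, C o)) + Ent w (fun o => (B o, C o)) - Ent w C := by
    have f1 : Ent v (fun p => ((A p.1, B p.2), (A p.1 + B p.2, C p.1))) =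
        Ent v (fun p => (A p.1, B p.2, C p.1)) := by
      refine Ent_congr fun o o' => ?_
      simp only [Prod.mk.injEq]
      constructor
      · rintro ⟨⟨h3, h4⟩, _, h5⟩; exact ⟨h3, h4, h5⟩
      · rintro ⟨h3, h4, h5⟩; exact ⟨⟨h3, h4⟩, by rw [h3, h4], h5⟩
    have f2 := Ent_submod hv (fun p => A p.1) (fun p => B p.2) (fun p => C p.1)
    have f3 : Ent v (fun p => (A p.1, C p.1)) = Ent w (fun o => (A o, C o)) :=
      Ent_w2_fst hw U (fun o => (A o, C o))
    have f4 : Ent v (fun p => (B p.2, C p.1)) = Ent w (fun o => (B o, C o)) := by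
      rw [← Ent_w2_snd hw U (fun o => (B o, C o))]
      refine Ent_congr' fun o o' ho ho' => ?_
      simp only [(hs o ho).2, (hs o' ho').2]
    linarith
  have e7 : Ent v (fun p => ((A p.2, B p.1), (A p.1 + B p.2, C p.1))) ≤
      Ent w (fun o => (A o, C o)) + Ent w (fun o => (B o, C o)) - Ent w C := by
    have f1 : Ent v (fun p => ((A p.2, B p.1), (A p.1 + B p.2, C p.1))) =
        Ent v (fun p => (A p.2, B p.1, C p.1)) := by
      refine Ent_congr' fun o o' ho ho' => ?_
      have key : ∀ p, v p ≠ 0 → A p.1 + B p.2 = A p.2 + B p.1 := by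
        intro p hp
        have s1 := (hs p hp).1
        have s2 : A p.1 - B p.2 = A p.2 - B p.1 := by
          rw [sub_eq_sub_iff_add_eq_add, s1]
        rwa [sub_eq_add_neg, sub_eq_add_neg, hneg, hneg] at s2
      simp only [Prod.mk.injEq]
      constructor
      · rintro ⟨⟨h3, h4⟩, _, h5⟩; exact ⟨h3, h4, h5⟩
      · rintro ⟨h3, h4, h5⟩
        exact ⟨⟨h3, h4⟩, by rw [key o ho, key o' ho', h3, h4], h5⟩
    have f2 := Ent_submod hv (fun p => A p.2) (fun p => B p.1) (fun p => C p.1)
    have f3 : Ent v (fun p => (B p.1, C p.1)) = Ent w (fun o => (B o, C o)) :=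
      Ent_w2_fst hw U (fun o => (B o, C o))
    have f4 : Ent v (fun p => (A p.2, C p.1)) = Ent w (fun o => (A o, C o)) := by
      rw [← Ent_w2_snd hw U (fun o => (A o, C o))]
      refine Ent_congr' fun o o' ho ho' => ?_
      simp only [(hs o ho).2, (hs o' ho').2]
    linarith
  -- the joint entropy
  have e8 : Ent v (fun p => ((A p.1, B p.2), (A p.2, B p.1), (A p.1 + B p.2, C p.1))) =
      2 * Ent w (fun o => (A o, B o, C o)) - Ent w U := by
    have f1 : Ent v (fun p => ((A p.1, B p.2), (A p.2, B p.1), (A p.1 + B p.2, C p.1))) =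
        Ent v (fun p => (A p.1, A p.2, U p.1)) := by
      refine Ent_congr' fun o o' ho ho' => ?_
      have s1 := (hs o ho).1
      have s2 := (hs o' ho').1
      simp only [hU, Prod.mk.injEq]
      constructor
      · rintro ⟨⟨h3, h4⟩, ⟨h5, h6⟩, _, h7⟩
        exact ⟨h3, h5, by rw [h3, h6], h7⟩
      · rintro ⟨h3, h5, h6, h7⟩
        have b1 : B o.1 = B o'.1 := by
          rw [h3] at h6
          exact add_left_cancel h6
        have b2 : B o.2 = B o'.2 := by
          rw [s1, s2, h5] at h6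
          exact add_left_cancel h6
        exact ⟨⟨h3, b2⟩, ⟨h5, b1⟩, by rw [h3, b2], h7⟩
    have f2 := Ent_w2 hw U A A
    have f3 : Ent w (fun o => (A o, U o)) = Ent w (fun o => (A o, B o, C o)) := by
      refine Ent_congr fun o o' => ?_
      simp only [hU, Prod.mk.injEq]
      constructor
      · rintro ⟨h3, h4, h5⟩
        rw [h3] at h4
        exact ⟨h3, add_left_cancel h4, h5⟩
      · rintro ⟨h3, h4, h5⟩
        exact ⟨h3, by rw [h3, h4], h5⟩
    rw [f1, f2, f3]
    ring
  have e9 : Ent w (fun o => (A o, A o + B o, C o)) = Ent w (fun o => (A o, B o, C o)) := by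
    refine Ent_congr fun o o' => ?_
    simp only [Prod.mk.injEq]
    constructor
    · rintro ⟨h3, h4, h5⟩
      rw [h3] at h4
      exact ⟨h3, add_left_cancel h4, h5⟩
    · rintro ⟨h3, h4, h5⟩
      exact ⟨h3, by rw [h3, h4], h5⟩
  rw [e1, e9]
  rw [e3, e4] at e2
  rw [e8] at e5
  linarith

end Pool.Agent.Helper97.PF
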